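import Pool.Agent.WAP.StmtsL
import Pool.Agent.WAP.Alg

/-!
# WAP, row NRM: every point of the surface over a local field has a frame over a normalized twist
-/

set_option autoImplicit false

namespace Pool.Agent.WAP.H39

open Pool.Agent.WAP
open Classical

/-- a local field of our kind has characteristic different from 2 -/
theorem loc_two_ne {F : Type} [NormedField F] [Algebra GaussianInt F] {ϖ : GaussianInt}
    (h : IsLoc F ϖ) : (2 : F) ≠ 0 := by
  intro h2
  obtain ⟨φ, hφ⟩ : ∃ φ : GaussianInt →+* F, φ = algebraMap GaussianInt F := ⟨_, rfl⟩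
  obtain ⟨I, hI⟩ : ∃ I : GaussianInt, I = ⟨0, 1⟩ := ⟨_, rfl⟩
  have hII : I * I = -1 := by
    rw [hI]
    ext <;> simp
  have hdec : ϖ = (ϖ.re : GaussianInt) + (ϖ.im : GaussianInt) * I := by
    rw [hI]
    ext <;> simp
  have h1 : φ I * φ I = -1 := by
    rw [← map_mul, hII, map_neg, map_one]
  have h3 : (φ I - 1) ^ 2 = 0 := by linear_combination h1 - (φ I) * h2
  have h4 : φ I = 1 := by
    have := pow_eq_zero_iff (two_ne_zero) |>.1 h3
    linear_combination this
  have h5 : φ ϖ = ((ϖ.re + ϖ.im : ℤ) : F) := by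
    have h6 : φ ϖ = φ ((ϖ.re : GaussianInt) + (ϖ.im : GaussianInt) * I) := congrArg φ hdec
    rw [h6, map_add, map_mul, h4, map_intCast, map_intCast]
    push_cast
    ring
  rcases Int.even_or_odd (ϖ.re + ϖ.im) with ⟨k, hk⟩ | ⟨k, hk⟩
  · have h6 : φ ϖ = 0 := by
      rw [h5, hk]
      push_cast
      linear_combination (k : F) * h2
    have h7 := h.uni
    rw [← hφ, h6, norm_zero] at h7
    exact lt_irrefl _ h7
  · have h6 : φ ϖ = 1 := by
      rw [h5, hk]
      push_cast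
      linear_combination (k : F) * h2
    have h7 := (h.lt_one ϖ).2 (dvd_refl ϖ)
    rw [← hφ, h6, norm_one] at h7
    exact lt_irrefl _ h7

/-- row NRM -/
theorem nrm : NrmStmt := by
  intro F _ _ ϖ hL z hz
  have hd := G.onU_cub1 hz
  have hp : algebraMap GaussianInt F ϖ ≠ 0 := norm_pos_iff.mp hL.uni
  have h2 := loc_two_ne hL
  have hk := G.kum_fr h2 hz
  obtain ⟨n, hn⟩ := hL.val (cub z.1) hd
  have key : ∀ m e : ℤ, n = 2 * m + e →
      ‖((algebraMap GaussianInt F ϖ) ^ (-m)) ^ 2 * cub z.1‖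
        = ‖algebraMap GaussianInt F ϖ‖ ^ e := by
    intro m e hme
    have hq : ‖algebraMap GaussianInt F ϖ‖ ≠ 0 := hL.uni.ne'
    rw [norm_mul, norm_pow, norm_zpow, hn, ← zpow_natCast, ← zpow_mul, ← zpow_add₀ hq]
    congr 1
    rw [hme]
    push_cast
    ring
  have hu : ∀ m : ℤ, (algebraMap GaussianInt F ϖ) ^ (-m) ≠ 0 := fun m => zpow_ne_zero _ hp
  rcases Int.even_or_odd' n with ⟨m, hm | hm⟩
  · refine ⟨_, G.sc _ (hu m) (frP z), G.sc _ (hu m) (frQ z), Or.inl ?_, ?_⟩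
    · rw [key m 0 (by rw [hm]; ring), zpow_zero]
    · rw [G.kum_sc, hk]
  · refine ⟨_, G.sc _ (hu m) (frP z), G.sc _ (hu m) (frQ z), Or.inr ?_, ?_⟩
    · rw [key m 1 hm, zpow_one]
      rfl
    · rw [G.kum_sc, hk]

end Pool.Agent.WAP.H39
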